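import Mathlib

/-! Exponential tilting: a large rectangle with few zero entries. -/

namespace Pool.Agent.H.MP_ba5def_co
open Finset Classical Real Matrix

lemma cosh_ge (y : ℝ) : exp (y ^ 2 / 2 - (y ^ 2 / 2) ^ 2) ≤ cosh y := by
  have h1 : 1 + y ^ 2 / 2 ≤ cosh y := by
    have := cosh_two_mul (y / 2)
    rw [mul_div_cancel₀ _ two_ne_zero, cosh_sq'] at this
    have h : |y / 2| ≤ |sinh (y / 2)| := by
      rw [abs_sinh]
      exact self_le_sinh_iff.mpr (abs_nonneg _)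
    have := sq_le_sq.mpr h
    nlinarith
  refine le_trans ?_ h1
  have z0 : 0 ≤ y ^ 2 / 2 := by positivity
  generalize y ^ 2 / 2 = z at *
  have h2 := add_one_le_exp (-(z - z ^ 2))
  rw [exp_neg, ← one_div, le_div_iff₀ (exp_pos _)] at h2
  have h3 : 0 < -(z - z ^ 2) + 1 := by nlinarith [sq_nonneg (z - 1)]
  refine le_of_mul_le_mul_left (h2.trans ?_) h3
  nlinarith [pow_nonneg z0 3]

lemma gauss (k : ℕ) (R : ℝ) : ∃ (Ω : Type) (_ : Fintype Ω) (g : Ω → Fin k → ℝ),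
    0 < Fintype.card Ω ∧ ∀ w : Fin k → ℝ, (w ⬝ᵥ w ≤ R → Fintype.card Ω * exp (w ⬝ᵥ w / 2 - 1) ≤
      ∑ ω, exp (w ⬝ᵥ g ω)) ∧ ∑ ω, exp (w ⬝ᵥ g ω) ≤ Fintype.card Ω * exp (w ⬝ᵥ w / 2) := by
  obtain ⟨s, hs⟩ := exists_nat_gt (|R|)
  have s0 : (0 : ℝ) < s := (abs_nonneg _).trans_lt hs
  refine ⟨Fin k × Fin (s ^ 2) → Bool, inferInstance,
    fun ω a => ∑ j, (if ω (a, j) then 1 else -1) / s, Fintype.card_pos, fun w => ?_⟩
  have e : ∑ ω : Fin k × Fin (s ^ 2) → Bool, exp (w ⬝ᵥ fun a => ∑ j, (if ω (a, j) then 1 else -1) / s) =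
      Fintype.card (Fin k × Fin (s ^ 2) → Bool) * ∏ q : Fin k × Fin (s ^ 2), cosh (w q.1 / s) := by
    have := prod_univ_sum (fun _ : Fin k × Fin (s ^ 2) => (univ : Finset Bool))
      fun q b => exp (w q.1 * ((if b then 1 else -1) / s))
    simp only [← exp_sum, Fintype.piFinset_univ, Fintype.sum_prod_type] at this
    simp only [dotProduct, mul_sum, ← this]
    rw [Fintype.card_fun, Nat.cast_pow, ← card_univ (α := Fin k × _), ← prod_const, ← prod_mul_distrib]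
    refine prod_congr rfl fun q _ => ?_
    simp [cosh_eq, neg_div, mul_div_assoc', mul_comm]
  have h : ∀ φ : ℝ → ℝ, ∑ q : Fin k × Fin (s ^ 2), φ (w q.1 / s) = s ^ 2 * ∑ a, φ (w a / s) := fun φ => by
    simp [Fintype.sum_prod_type, mul_sum]
  have h2 : ∑ q : Fin k × Fin (s ^ 2), (w q.1 / s) ^ 2 / 2 = w ⬝ᵥ w / 2 := by
    rw [h fun y => y ^ 2 / 2, dotProduct, mul_sum, sum_div]
    exact sum_congr rfl fun a _ => by field_simp
  rw [e]
  refine ⟨fun hw => mul_le_mul_of_nonneg_left (le_trans ?_ (prod_le_prod (fun _ _ => (exp_pos _).le)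
    fun q _ => cosh_ge _)) (by positivity), mul_le_mul_of_nonneg_left ((prod_le_prod
      (fun _ _ => (cosh_pos _).le) fun q _ => cosh_le_exp_half_sq _).trans ?_) (by positivity)⟩
  · rw [← exp_sum, exp_le_exp, sum_sub_distrib, h2, h fun y => (y ^ 2 / 2) ^ 2]
    have : ∑ a, (w a * w a) ^ 2 ≤ (w ⬝ᵥ w) ^ 2 := sum_sq_le_sq_sum_of_nonneg fun _ _ => mul_self_nonneg _
    have h3 : (w ⬝ᵥ w) ^ 2 ≤ s ^ 2 := by
      have : 0 ≤ w ⬝ᵥ w := sum_nonneg fun _ _ => mul_self_nonneg _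
      gcongr
      exact hw.trans ((le_abs_self R).trans hs.le)
    have h4 : s ^ 2 * ∑ a, ((w a / s) ^ 2 / 2) ^ 2 = (∑ a, (w a * w a) ^ 2) / (4 * s ^ 2) := by
      rw [mul_sum, sum_div]
      exact sum_congr rfl fun a _ => by field_simp; ring
    rw [h4, sub_le_sub_iff_left, div_le_one (by positivity)]
    nlinarith [sq_nonneg (s : ℝ)]
  · rw [← exp_sum, h2]

lemma rnd {ι : Type} (I : Finset ι) {f : ι → ℝ} (a : ι → ℝ) (f0 : ∀ i, 0 ≤ f i) (f1 : ∀ i, f i ≤ 1) :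
    ∃ I' ⊆ I, ∑ i ∈ I, f i * a i ≤ ∑ i ∈ I', a i :=
  ⟨I.filter fun i => 0 < a i, filter_subset _ _, by
    rw [sum_filter]
    exact sum_le_sum fun i _ => by split_ifs <;> nlinarith [f0 i, f1 i]⟩

lemma tilt {ι β : Type} {k : ℕ} {I : Finset ι} {B : Finset β} {U : ι → Fin k → ℝ}
    {V : β → Fin k → ℝ} {l L : ℝ} (hU : ∀ i ∈ I, U i ⬝ᵥ U i = 1) (hV : ∀ x ∈ B, V x ⬝ᵥ V x = 1)
    (l0 : 6 ≤ l) (L0 : 0 ≤ L) (h : ∀ i ∈ I, 4 * (L + 1) * B.card ≤ ∑ x ∈ B, exp (l * U i ⬝ᵥ V x)) :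
    ∃ I' ⊆ I, ∃ B' ⊆ B, exp (-(5 * l)) * (I.card * B.card) ≤
      ∑ i ∈ I', ∑ x ∈ B', (1 - if U i ⬝ᵥ V x = 0 then L else 0) := by
  obtain ⟨Ω, _, g, Ω0, hg⟩ := gauss k (4 * l)
  let a : (Fin k → ℝ) → Ω → ℝ := fun u ω => exp (√l * u ⬝ᵥ g ω - 3 * l)
  have a0 : ∀ u ω, 0 < a u ω := fun _ _ => exp_pos _
  have sq : √l * √l = l := mul_self_sqrt (by linarith)
  have key : ∀ (u v : Fin k → ℝ) (p q : ℕ), u ⬝ᵥ u = 1 → v ⬝ᵥ v = 1 →
      ∃ w : Fin k → ℝ, w ⬝ᵥ w = l * (p ^ 2 + q ^ 2 + 2 * p * q * u ⬝ᵥ v) ∧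
      ∑ ω, a u ω ^ p * a v ω ^ q = exp (-(3 * l * (p + q))) * ∑ ω, exp (w ⬝ᵥ g ω) :=
    fun u v p q hu hv => ⟨(p * √l) • u + (q * √l) • v, by
      simp only [add_dotProduct, dotProduct_add, smul_dotProduct, dotProduct_smul, hu, hv,
        smul_eq_mul, dotProduct_comm v u]
      linear_combination (p ^ 2 + q ^ 2 + 2 * p * q * u ⬝ᵥ v) * sq, by
      rw [mul_sum]
      refine sum_congr rfl fun ω _ => ?_
      simp only [a, ← exp_nat_mul, ← exp_add, add_dotProduct, smul_dotProduct, smul_eq_mul]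
      exact congrArg exp (by ring)⟩
  have one : ∀ i ∈ I, ∀ x ∈ B, Fintype.card Ω * exp (-(5 * l)) * (exp (l * U i ⬝ᵥ V x) / 4 - L) ≤
      ∑ ω, min (a (U i) ω) 1 * (min (a (V x) ω) 1 * (1 - if U i ⬝ᵥ V x = 0 then L else 0)) :=
    fun i hi x hx => by
      have r1 : U i ⬝ᵥ V x ≤ 1 := by
        have : 0 ≤ (U i - V x) ⬝ᵥ (U i - V x) := sum_nonneg fun _ _ => mul_self_nonneg _
        simp only [sub_dotProduct, dotProduct_sub, hU i hi, hV x hx, dotProduct_comm (V x)] at this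
        linarith
      obtain ⟨w, w1, w2⟩ := key _ _ 1 1 (hU i hi) (hV x hx)
      obtain ⟨w', w3, w4⟩ := key _ _ 2 1 (hU i hi) (hV x hx)
      obtain ⟨w'', w5, w6⟩ := key _ _ 1 2 (hU i hi) (hV x hx)
      have p1 := mul_le_mul_of_nonneg_left ((hg w).1 (by rw [w1]; push_cast; nlinarith))
        (exp_pos (-(3 * l * ((1 : ℕ) + (1 : ℕ))))).le
      have p2 := mul_le_mul_of_nonneg_left (hg w).2 (exp_pos (-(3 * l * ((1 : ℕ) + (1 : ℕ))))).le
      have p3 := mul_le_mul_of_nonneg_left (hg w').2 (exp_pos (-(3 * l * ((2 : ℕ) + (1 : ℕ))))).le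
      have p4 := mul_le_mul_of_nonneg_left (hg w'').2 (exp_pos (-(3 * l * ((1 : ℕ) + (2 : ℕ))))).le
      rw [← w2, mul_left_comm, ← exp_add, w1] at p1 p2
      rw [← w4, mul_left_comm, ← exp_add, w3] at p3
      rw [← w6, mul_left_comm, ← exp_add, w5] at p4
      generalize U i ⬝ᵥ V x = ρ at *
      have c0 : (0 : ℝ) ≤ Fintype.card Ω := by positivity
      have q : ∀ y, y ≤ -(5 * l) + l * ρ + -3 → Fintype.card Ω * exp y ≤
          Fintype.card Ω * (exp (-(5 * l)) * exp (l * ρ) * exp (-1) ^ 3) := fun y hy => by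
        rw [← exp_nat_mul, ← exp_add, ← exp_add]
        gcongr
        push_cast
        linarith
      have p5 := p3.trans (q _ (by push_cast; nlinarith))
      have p6 := p4.trans (q _ (by push_cast; nlinarith))
      rw [show -(3 * l * ((1 : ℕ) + (1 : ℕ))) + (l * ((1 : ℕ) ^ 2 + (1 : ℕ) ^ 2 + 2 * (1 : ℕ) *
        (1 : ℕ) * ρ) / 2 - 1) = -(5 * l) + l * ρ + -1 by push_cast; ring, exp_add, exp_add] at p1
      have p7 : ∑ ω, a (U i) ω ^ 1 * a (V x) ω ^ 1 - ∑ ω, a (U i) ω ^ 2 * a (V x) ω ^ 1 -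
          ∑ ω, a (U i) ω ^ 1 * a (V x) ω ^ 2 ≤ ∑ ω, min (a (U i) ω) 1 * min (a (V x) ω) 1 := by
        rw [← sum_sub_distrib, ← sum_sub_distrib]
        refine sum_le_sum fun ω _ => ?_
        have h1 := a0 (U i) ω
        have h2 := a0 (V x) ω
        generalize a (U i) ω = s at *
        generalize a (V x) ω = t at *
        have := mul_pos h1 h2
        rcases le_total s 1 with c | c <;> rcases le_total t 1 with c' | c' <;>
          simp only [c, c', min_eq_left, min_eq_right] <;> nlinarith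
      have p8 : ∑ ω, min (a (U i) ω) 1 * min (a (V x) ω) 1 ≤ ∑ ω, a (U i) ω ^ 1 * a (V x) ω ^ 1 :=
        sum_le_sum fun ω _ => by
          rw [pow_one, pow_one]
          exact mul_le_mul (min_le_left _ _) (min_le_left _ _) (le_min (a0 _ _).le zero_le_one)
            (a0 _ _).le
      have e1 : 1 / 4 ≤ exp (-1) - 2 * exp (-1) ^ 3 := by
        have := exp_neg_one_gt_d9
        have := exp_neg_one_lt_d9
        nlinarith [pow_le_pow_left₀ (exp_pos (-1)).le this.le 3]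
      have e2 := mul_le_mul_of_nonneg_left e1
        (show 0 ≤ Fintype.card Ω * (exp (-(5 * l)) * exp (l * ρ)) by positivity)
      simp only [← mul_assoc, ← sum_mul]
      split_ifs with c
      · rw [show -(3 * l * ((1 : ℕ) + (1 : ℕ))) + l * ((1 : ℕ) ^ 2 + (1 : ℕ) ^ 2 + 2 * (1 : ℕ) *
          (1 : ℕ) * ρ) / 2 = -(5 * l) by push_cast; rw [c]; ring] at p2
        nlinarith [mul_le_mul_of_nonneg_left (p8.trans p2) L0]
      · nlinarith [show 0 ≤ Fintype.card Ω * exp (-(5 * l)) * L by positivity]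
  obtain ⟨ω, -, hω⟩ := exists_le_of_sum_le (s := (univ : Finset Ω)) (card_pos.mp Ω0)
    (f := fun _ => exp (-(5 * l)) * (I.card * B.card)) (g := fun ω => ∑ i ∈ I, ∑ x ∈ B,
      min (a (U i) ω) 1 * (min (a (V x) ω) 1 * (1 - if U i ⬝ᵥ V x = 0 then L else 0))) (by
      rw [sum_comm, sum_const, card_univ, nsmul_eq_mul, ← mul_assoc, ← nsmul_eq_mul I.card,
        ← sum_const, mul_sum]
      refine sum_le_sum fun i hi => ?_
      rw [sum_comm]
      refine le_trans ?_ (sum_le_sum (one i hi))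
      rw [← mul_sum, sum_sub_distrib, ← sum_div, sum_const, nsmul_eq_mul]
      gcongr
      linarith [h i hi])
  have m0 : ∀ u, 0 ≤ min (a u ω) 1 := fun u => le_min (a0 _ _).le zero_le_one
  simp only [← mul_sum] at hω
  obtain ⟨I', s1, h1⟩ := rnd I (fun i => ∑ x ∈ B, min (a (V x) ω) 1 *
    (1 - if U i ⬝ᵥ V x = 0 then L else 0)) (fun i => m0 (U i)) fun _ => min_le_right _ _
  obtain ⟨B', s2, h2⟩ := rnd B (fun x => ∑ i ∈ I', (1 - if U i ⬝ᵥ V x = 0 then L else 0))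
    (fun x => m0 (V x)) fun _ => min_le_right _ _
  refine ⟨I', s1, B', s2, (hω.trans h1).trans ?_⟩
  rw [sum_comm, sum_comm (s := I')]
  simpa only [← mul_sum] using h2

end Pool.Agent.H.MP_ba5def_co
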