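import Mathlib

/-! An approximate radial isotropic position. -/

namespace Pool.Agent.H.MP_ba5def_co
open Finset Classical Real Matrix

variable {β : Type} {k : ℕ}

lemma nn0 (w : Fin k → ℝ) : 0 ≤ w ⬝ᵥ w := sum_nonneg fun _ _ => mul_self_nonneg _

lemma det_sq (w : Fin k → Fin k → ℝ) :
    (Matrix.of w).det ^ 2 ≤ (k.factorial : ℝ) ^ 2 * ∏ a, w a ⬝ᵥ w a := by
  have : |(Matrix.of w).det| ≤ k.factorial * ∏ a, √(w a ⬝ᵥ w a) := by
    rw [← det_transpose, det_apply']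
    refine (abs_sum_le_sum_abs _ _).trans ((sum_le_card_nsmul _ _ _ fun σ _ => ?_).trans (by
      simp [Fintype.card_perm]; rfl))
    rw [abs_mul, abs_unit_intCast, one_mul, abs_prod]
    exact prod_le_prod (fun _ _ => abs_nonneg _) fun a _ => abs_le_sqrt (by
      rw [sq]; exact single_le_sum (f := fun b => w a b * w a b) (fun _ _ => mul_self_nonneg _)
        (mem_univ _))
  refine (sq_abs _).ge.trans ((pow_le_pow_left₀ (abs_nonneg _) this 2).trans_eq ?_)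
  rw [mul_pow, ← prod_pow, prod_congr rfl fun a _ => sq_sqrt (nn0 _)]

lemma bases (k0 : 0 < k) (v : β → Fin k → ℝ) (B : Finset β) : ∃ B' ⊆ B, ∃ (m : ℕ) (c : ℝ), 0 < c ∧
    B'.card = m * k ∧ (∀ T : Matrix (Fin k) (Fin k) ℝ,
      c * (T.det ^ 2) ^ m ≤ ∏ x ∈ B', (T *ᵥ v x) ⬝ᵥ (T *ᵥ v x)) ∧
    ∃ y : Fin k → ℝ, y ≠ 0 ∧ ∀ x ∈ B \ B', y ⬝ᵥ v x = 0 := by
  induction B using Finset.strongInduction with
  | H B ih =>
  by_cases h : Submodule.span ℝ (Set.range fun x : B => v x) = ⊤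
  swap
  · obtain ⟨f, f0, hf⟩ := Submodule.exists_le_ker_of_lt_top _ (lt_top_iff_ne_top.mpr h)
    refine ⟨∅, empty_subset _, 0, 1, one_pos, by simp, by simp, fun a => f (Pi.single a 1),
      fun q => f0 (LinearMap.pi_ext' fun a => LinearMap.ext_ring (congrFun q a)), fun x hx => ?_⟩
    have : f (v x) = 0 := hf (Submodule.subset_span ⟨⟨x, by simpa using hx⟩, rfl⟩)
    rw [← this, LinearMap.pi_apply_eq_sum_univ, dotProduct]
    exact sum_congr rfl fun a _ => by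
      rw [smul_eq_mul, mul_comm]
      exact congrArg (_ * f ·) (funext fun b => by simp [Pi.single_apply, eq_comm])
  obtain ⟨κ, a, ia, sp, li⟩ := exists_linearIndependent' ℝ fun x : B => v x
  let e := (Module.Basis.mk li (sp.trans h).ge).indexEquiv (Pi.basisFun ℝ (Fin k))
  let f : Fin k → β := fun b => a (e.symm b)
  have fi : Function.Injective f := Subtype.val_injective.comp (ia.comp e.symm.injective)
  have d0 : (Matrix.of fun b => v (f b)).det ≠ 0 := ((isUnit_iff_isUnit_det _).mp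
    (linearIndependent_rows_iff_isUnit.mp (li.comp _ e.symm.injective))).ne_zero
  have s : univ.image f ⊆ B := image_subset_iff.mpr fun b _ => (a _).2
  obtain ⟨B', s', m, c, c0, h1, h2, y, y0, h3⟩ := ih (B \ univ.image f)
    (sdiff_ssubset s ⟨f ⟨0, k0⟩, mem_image_of_mem _ (mem_univ _)⟩)
  have d : Disjoint B' (univ.image f) := sdiff_disjoint.mono_left s'
  refine ⟨B' ∪ univ.image f, union_subset (s'.trans sdiff_subset) s, m + 1,
    c * ((Matrix.of fun b => v (f b)).det ^ 2 / (k.factorial : ℝ) ^ 2), by positivity, ?_, fun T => ?_,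
    y, y0, fun x hx => h3 x (by clear * - hx; grind)⟩
  · rw [card_union_of_disjoint d, card_image_of_injective _ fi, h1, card_univ, Fintype.card_fin]
    ring
  · have := det_sq fun b => T *ᵥ v (f b)
    rw [show (Matrix.of fun b => T *ᵥ v (f b)) = (Matrix.of fun b => v (f b)) * Tᵀ from
      Matrix.ext fun b j => dotProduct_comm (T j) (v (f b)), det_mul, det_transpose, ← div_le_iff₀' (by positivity)]
      at this
    rw [prod_union d, prod_image fi.injOn]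
    exact le_trans (le_of_eq (by ring)) (mul_le_mul (h2 T) this (by positivity)
      (prod_nonneg fun _ _ => nn0 _))

lemma iso {v : β → Fin k → ℝ} {B : Finset β} {m : ℕ} {c : ℝ} (c0 : 0 < c) (m0 : m ≠ 0)
    (h : ∀ T : Matrix (Fin k) (Fin k) ℝ, c * (T.det ^ 2) ^ m ≤ ∏ x ∈ B, (T *ᵥ v x) ⬝ᵥ (T *ᵥ v x)) :
    ∃ T : Matrix (Fin k) (Fin k) ℝ, T.det ≠ 0 ∧ (∀ x ∈ B, 0 < (T *ᵥ v x) ⬝ᵥ (T *ᵥ v x)) ∧
      ∀ u : Fin k → ℝ, u ⬝ᵥ u = 1 →
        (m : ℝ) / 4 ≤ ∑ x ∈ B, (u ⬝ᵥ (T *ᵥ v x)) ^ 2 / ((T *ᵥ v x) ⬝ᵥ (T *ᵥ v x)) := by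
  have p : ∀ T : Matrix (Fin k) (Fin k) ℝ, T.det ≠ 0 → ∀ x ∈ B, 0 < (T *ᵥ v x) ⬝ᵥ (T *ᵥ v x) :=
    fun T d x hx => (nn0 _).lt_of_ne' fun q => by
      have := (h T).trans_eq (prod_eq_zero hx q)
      exact this.not_gt (by positivity)
  by_contra! n
  have : ∀ j : ℕ, ∃ T : Matrix (Fin k) (Fin k) ℝ, T.det ≠ 0 ∧ ∏ x ∈ B, (T *ᵥ v x) ⬝ᵥ (T *ᵥ v x) ≤
      (3 / 4) ^ j * (∏ x ∈ B, v x ⬝ᵥ v x) * (T.det ^ 2) ^ m := fun j => by
    induction j with
    | zero => exact ⟨1, by simp, by simp⟩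
    | succ j ih =>
    obtain ⟨T, d, k1⟩ := ih
    obtain ⟨u, u1, u2⟩ := n T d (p T d)
    have e : ((1 + vecMulVec u u) * T).det = 2 * T.det := by
      rw [det_mul, vecMulVec_eq Unit, det_one_add_replicateCol_mul_replicateRow, u1]
      norm_num
    refine ⟨(1 + vecMulVec u u) * T, by rw [e]; positivity, ?_⟩
    calc _ ≤ ∏ x ∈ B, ((T *ᵥ v x) ⬝ᵥ (T *ᵥ v x) *
          exp (3 * ((u ⬝ᵥ (T *ᵥ v x)) ^ 2 / ((T *ᵥ v x) ⬝ᵥ (T *ᵥ v x))))) :=
          prod_le_prod (fun _ _ => nn0 _) fun x hx => by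
            have q := p T d x hx
            rw [← mulVec_mulVec]
            generalize T *ᵥ v x = w at *
            refine le_trans (le_of_eq ?_) (mul_le_mul_of_nonneg_left (add_one_le_exp _) q.le)
            simp only [add_mulVec, one_mulVec, vecMulVec_mulVec, add_dotProduct, dotProduct_add,
              op_smul_eq_smul, smul_dotProduct, dotProduct_smul, u1, smul_eq_mul, dotProduct_comm w u]
            field_simp
            ring
      _ ≤ (3 / 4) ^ j * (∏ x ∈ B, v x ⬝ᵥ v x) * (T.det ^ 2) ^ m * 3 ^ m := by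
          rw [prod_mul_distrib, ← exp_sum, ← mul_sum]
          refine mul_le_mul k1 ((exp_le_exp.mpr (show _ ≤ m * (1 : ℝ) by
            linarith [Nat.cast_nonneg (α := ℝ) m])).trans ?_) (exp_pos _).le
            ((prod_nonneg fun _ _ => nn0 _).trans k1)
          rw [exp_nat_mul]
          gcongr
          linarith [exp_one_lt_d9]
      _ ≤ _ := by
          have : (3 : ℝ) ^ m ≤ 3 / 4 * 4 ^ m := by
            rw [← div_le_iff₀ (by positivity), ← div_pow]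
            exact pow_le_of_le_one (by norm_num) (by norm_num) m0
          have h0 : 0 ≤ ∏ x ∈ B, v x ⬝ᵥ v x := prod_nonneg fun _ _ => nn0 _
          refine (mul_le_mul_of_nonneg_left this (by positivity)).trans_eq ?_
          rw [e, mul_pow 2, mul_pow (2 ^ 2), show (2 : ℝ) ^ 2 = 4 by norm_num]
          ring
  have h0 : 0 < ∏ x ∈ B, v x ⬝ᵥ v x := prod_pos (by simpa using p 1 (by simp))
  obtain ⟨j, hj⟩ := exists_pow_lt_of_lt_one (div_pos c0 h0) (show (3 / 4 : ℝ) < 1 by norm_num)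
  obtain ⟨T, d, k1⟩ := this j
  exact ((lt_div_iff₀ h0).mp hj).not_ge (le_of_mul_le_mul_right ((h T).trans k1) (by positivity))

lemma unit {w : Fin k → ℝ} (h : 0 < w ⬝ᵥ w) :
    ((√(w ⬝ᵥ w))⁻¹ • w) ⬝ᵥ ((√(w ⬝ᵥ w))⁻¹ • w) = 1 := by
  rw [smul_dotProduct, dotProduct_smul, smul_eq_mul, smul_eq_mul, ← mul_assoc, ← mul_inv,
    mul_self_sqrt h.le, inv_mul_cancel₀ h.ne']

lemma forster {ι : Type} (r : ℕ) : ∀ (u : ι → Fin r → ℝ) (v : β → Fin r → ℝ) (B : Finset β),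
    ∃ B' ⊆ B, B.card ≤ (r + 1) * B'.card ∧ ((∀ i, ∀ x ∈ B', u i ⬝ᵥ v x = 0) ∨
      ∃ (k : ℕ) (U : ι → Fin k → ℝ) (V : β → Fin k → ℝ),
      (∀ x ∈ B', V x ⬝ᵥ V x = 1) ∧ ∀ i, (∀ x ∈ B', u i ⬝ᵥ v x = 0) ∨
        (U i ⬝ᵥ U i = 1 ∧ (B'.card : ℝ) ≤ 4 * r * ∑ x ∈ B', (U i ⬝ᵥ V x) ^ 2 ∧
          ∀ x ∈ B', u i ⬝ᵥ v x = 0 → U i ⬝ᵥ V x = 0)) := by
  induction r with
  | zero => exact fun u v B => ⟨B, subset_rfl, by simp, Or.inl (by simp [dotProduct])⟩
  | succ r ih =>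
  intro u v B
  obtain ⟨B', s, m, c, c0, h1, h2, y, y0, h3⟩ := bases r.succ_pos v B
  by_cases q : B.card ≤ (r + 1 + 1) * B'.card
  · refine ⟨B', s, q, ?_⟩
    rcases eq_or_ne m 0 with rfl | m0
    · exact Or.inl (by simp [card_eq_zero.mp (h1.trans (zero_mul _))])
    obtain ⟨T, d, p, k⟩ := iso c0 m0 h2
    have e : ∀ i x, u i ⬝ᵥ v x = (u i ᵥ* T⁻¹) ⬝ᵥ (T *ᵥ v x) := fun i x => by
      rw [← dotProduct_mulVec, mulVec_mulVec, nonsing_inv_mul _ d.isUnit, one_mulVec]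
    refine Or.inr ⟨_, fun i => (√((u i ᵥ* T⁻¹) ⬝ᵥ (u i ᵥ* T⁻¹)))⁻¹ • (u i ᵥ* T⁻¹),
      fun x => (√((T *ᵥ v x) ⬝ᵥ (T *ᵥ v x)))⁻¹ • (T *ᵥ v x), fun x hx => unit (p x hx), fun i => ?_⟩
    rcases (nn0 (u i ᵥ* T⁻¹)).eq_or_lt with z | z
    · exact Or.inl fun x _ => by rw [e, dotProduct_self_eq_zero.mp z.symm, zero_dotProduct]
    refine Or.inr ⟨unit z, ?_, fun x _ h => by
      rw [smul_dotProduct, dotProduct_smul, ← e, h, smul_zero, smul_zero]⟩
    have := k _ (unit z)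
    rw [sum_congr rfl fun x hx => by
      rw [dotProduct_smul, smul_eq_mul, mul_pow, inv_pow, sq_sqrt (nn0 _), ← div_eq_inv_mul], h1]
    push_cast
    nlinarith [show (0 : ℝ) ≤ r by positivity]
  obtain ⟨a, ha⟩ := Function.ne_iff.mp y0
  obtain ⟨B'', s', h4, h5⟩ := ih (fun i b => u i (a.succAbove b) - u i a * y (a.succAbove b) / y a)
    (fun x b => v x (a.succAbove b)) (B \ B')
  have e : ∀ i, ∀ x ∈ B'', ((fun b => u i (a.succAbove b) - u i a * y (a.succAbove b) / y a) ⬝ᵥ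
      fun b => v x (a.succAbove b)) = u i ⬝ᵥ v x := fun i x hx => by
    have := h3 x (s' hx)
    simp only [dotProduct, Fin.sum_univ_succAbove _ a, sub_mul, sum_sub_distrib, div_mul_eq_mul_div,
      mul_assoc, ← sum_div, ← mul_sum] at this ⊢
    rw [eq_neg_of_add_eq_zero_right this]
    have : y a ≠ 0 := ha
    field_simp
    ring
  have := card_sdiff_add_card_eq_card s
  refine ⟨B'', s'.trans sdiff_subset, by nlinarith, h5.imp (fun h i x hx => e i x hx ▸ h i x hx)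
    fun ⟨k, U, V, p, h⟩ => ⟨k, U, V, p, fun i => (h i).imp (fun h x hx => e i x hx ▸ h x hx)
      fun ⟨p1, p2, p3⟩ => ⟨p1, p2.trans ?_, fun x hx z => p3 x hx ((e i x hx).trans z)⟩⟩⟩
  gcongr
  exact Nat.le_succ r

end Pool.Agent.H.MP_ba5def_co
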