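import Pool.Agent.H.MP_ba5def_co.A
import Pool.Agent.H.MP_ba5def_co.B

/-! If a product of boundedly many low rank matrices vanishes entrywise, then one of them has a
large zero rectangle. -/

namespace Pool.Agent.H.MP_ba5def_co
open Finset Classical Real Matrix

variable {ι β τ : Type}

def Rk (M : ι → β → ℝ) (r : ℕ) : Prop :=
  ∃ (u : ι → Fin r → ℝ) (v : β → Fin r → ℝ), ∀ i x, M i x = u i ⬝ᵥ v x

lemma Rk.of {κ : Type} [Fintype κ] (u : ι → κ → ℝ) (v : β → κ → ℝ) :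
    Rk (fun i x => u i ⬝ᵥ v x) (Fintype.card κ) :=
  ⟨fun i => u i ∘ (Fintype.equivFin κ).symm, fun x => v x ∘ (Fintype.equivFin κ).symm,
    fun _ _ => (comp_equiv_dotProduct_comp_equiv _ _ _).symm⟩

lemma Rk.prod {M : τ → ι → β → ℝ} {r : ℕ} (h : ∀ t, Rk (M t) r) (T : Finset τ) :
    Rk (fun i x => ∏ t ∈ T, M t i x) (r ^ T.card) := by
  choose u v h using h
  have := Rk.of (fun i (f : T → Fin r) => ∏ t : T, u t i (f t)) fun x f => ∏ t : T, v t x (f t)
  simp only [Fintype.card_fun, Fintype.card_fin, Fintype.card_coe, dotProduct,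
    ← prod_mul_distrib] at this
  simp only [h, dotProduct, ← prod_coe_sort T, prod_univ_sum, Fintype.piFinset_univ]
  exact this

lemma clean {M : ι → β → ℝ} {D : ℕ} (h : Rk M D) (I : Finset ι) {B : Finset β} (n : B.Nonempty)
    (k : 4 * D * ∑ i ∈ I, (B.filter fun x => M i x ≠ 0).card ≤ I.card * B.card) :
    ∃ I' ⊆ I, ∃ B' ⊆ B, I.card ≤ 2 * I'.card ∧ B.card ≤ 2 * B'.card ∧
      ∀ i ∈ I', ∀ x ∈ B', M i x = 0 := by
  obtain ⟨u, v, h⟩ := h
  set I' := I.filter fun i => 2 * D * (B.filter fun x => M i x ≠ 0).card ≤ B.card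
  obtain ⟨κ, a, -, sp, li⟩ := exists_linearIndependent' ℝ fun i : I' => u i
  have := li.finite
  have := Fintype.ofFinite κ
  have c : Fintype.card κ ≤ D := li.fintype_card_le_finrank.trans (by simp)
  refine ⟨I', filter_subset _ _, B.filter fun x => ∀ j, M (a j) x = 0, filter_subset _ _, ?_, ?_,
    fun i hi x hx => ?_⟩
  · have h1 : I'.card + _ = _ := card_filter_add_card_filter_not (s := I)
      fun i => 2 * D * (B.filter fun x => M i x ≠ 0).card ≤ B.card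
    have h2 := card_nsmul_le_sum (I.filter fun i =>
      ¬ 2 * D * (B.filter fun x => M i x ≠ 0).card ≤ B.card)
      (fun i => 2 * D * (B.filter fun x => M i x ≠ 0).card) B.card
      fun i hi => (not_le.mp (mem_filter.mp hi).2).le
    have h3 := h2.trans (sum_le_sum_of_subset (filter_subset _ _))
    rw [← mul_sum, smul_eq_mul] at h3
    have h4 : 2 * (I.filter fun i => ¬ 2 * D * (B.filter fun x => M i x ≠ 0).card ≤ B.card).card ≤
        I.card := Nat.le_of_mul_le_mul_right (by linarith) n.card_pos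
    omega
  · have h1 := card_filter_add_card_filter_not (s := B) fun x => ∀ j, M (a j) x = 0
    have h2 : (B.filter fun x => ¬ ∀ j, M (a j) x = 0).card ≤
        ∑ j, (B.filter fun x => M (a j) x ≠ 0).card :=
      (card_le_card fun x hx => by simpa [and_comm] using hx).trans card_biUnion_le
    have h3 := sum_le_card_nsmul univ (fun j => 2 * D * (B.filter fun x => M (a j) x ≠ 0).card)
      B.card fun j _ => (mem_filter.mp (a j).2).2
    rw [← mul_sum, smul_eq_mul, card_univ] at h3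
    rcases D.eq_zero_or_pos with rfl | d
    · have : IsEmpty κ := Fintype.card_eq_zero_iff.mp (by omega)
      simp only [univ_eq_empty, sum_empty] at h2
      omega
    have h4 : 2 * ∑ j, (B.filter fun x => M (a j) x ≠ 0).card ≤ B.card :=
      Nat.le_of_mul_le_mul_left (by nlinarith) d
    omega
  · have : u i ∈ Submodule.span ℝ (Set.range ((fun i : I' => u i) ∘ a)) :=
      sp ▸ Submodule.subset_span ⟨⟨i, hi⟩, rfl⟩
    rw [h]
    refine Submodule.span_induction (p := fun w _ => w ⬝ᵥ v x = 0) ?_ (zero_dotProduct _)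
      (fun _ _ _ _ p q => by rw [add_dotProduct, p, q, add_zero])
      (fun _ _ _ p => by rw [smul_dotProduct, p, smul_zero]) this
    rintro _ ⟨j, rfl⟩
    exact (h _ _).symm.trans ((mem_filter.mp hx).2 j)

lemma sgn {K r k : ℕ} {y : ℝ} {u : Fin k → ℝ} {V : β → Fin k → ℝ} {B1 : Finset β} (y1 : 1 ≤ y)
    (hy : y ^ 4 = r + 1) (E : (320 * (r + 1) ^ (K + 1) : ℝ) ≤ exp (20 * (K + 1) * y)) (p1 : u ⬝ᵥ u = 1)
    (p2 : (B1.card : ℝ) ≤ 4 * r * ∑ x ∈ B1, (u ⬝ᵥ V x) ^ 2) (hV : ∀ x ∈ B1, V x ⬝ᵥ V x = 1) :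
    ∃ w : Fin k → ℝ, w ⬝ᵥ w = 1 ∧ (∀ x, u ⬝ᵥ V x = 0 → w ⬝ᵥ V x = 0) ∧ 4 * (4 * (r + 1) ^ K + 1) *
      (B1.card : ℝ) ≤ ∑ x ∈ B1, exp (60 * (K + 1) * y ^ 3 * w ⬝ᵥ V x) := by
  have q : ∑ x ∈ B1, 320 * (r + 1) ^ (K + 1) * ((u ⬝ᵥ V x) ^ 2 - 1 / (9 * (r + 1))) ≤
      ∑ x ∈ B1, (exp (60 * (K + 1) * y ^ 3 * u ⬝ᵥ V x) + exp (60 * (K + 1) * y ^ 3 * (-u) ⬝ᵥ V x)) := sum_le_sum fun x hx => by
    have r1 : (u ⬝ᵥ V x) ^ 2 ≤ 1 := by
      have := sum_mul_sq_le_sq_mul_sq univ (u) (V x)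
      simp only [sq (u _), sq (V x _)] at this
      exact this.trans_eq (by rw [← one_mul 1]; exact congrArg₂ _ p1 (hV x hx))
    rw [neg_dotProduct]
    generalize u ⬝ᵥ V x = ρ at *
    rcases le_total (ρ ^ 2) (1 / (9 * (r + 1))) with q | q
    · exact le_trans (mul_nonpos_of_nonneg_of_nonpos (by positivity) (by linarith)) (by positivity)
    have q1 : 1 ≤ 3 * y ^ 2 * |ρ| := by
      rw [div_le_iff₀ (by positivity), ← hy] at q
      exact (one_le_sq_iff_one_le_abs _).mp (by nlinarith : 1 ≤ (3 * y ^ 2 * ρ) ^ 2) |>.trans_eq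
        (by rw [abs_mul, abs_of_nonneg (by positivity)])
    have q2 : exp (20 * (K + 1) * y) ≤ exp (60 * (K + 1) * y ^ 3 * |ρ|) := exp_le_exp.mpr (by
      nlinarith [mul_le_mul_of_nonneg_left q1 (show 0 ≤ 20 * (K + 1) * y by positivity)])
    refine (mul_le_of_le_one_right (by positivity) (sub_le_iff_le_add.mpr
      (le_add_of_le_of_nonneg r1 (by positivity)))).trans ((E.trans q2).trans ?_)
    rcases abs_choice ρ with a | a <;> rw [a]
    · exact le_add_of_nonneg_right (exp_pos _).le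
    · exact le_add_of_nonneg_left (exp_pos _).le
  have q1 : 40 * (r + 1) ^ K * (B1.card : ℝ) ≤
      ∑ x ∈ B1, 320 * (r + 1) ^ (K + 1) * ((u ⬝ᵥ V x) ^ 2 - 1 / (9 * (r + 1))) := by
    have s0 : 0 ≤ ∑ x ∈ B1, (u ⬝ᵥ V x) ^ 2 := sum_nonneg fun _ _ => sq_nonneg _
    rw [← mul_sum, sum_sub_distrib, sum_const, nsmul_eq_mul, pow_succ, show ∀ s : ℝ,
      320 * ((r + 1 : ℝ) ^ K * (r + 1)) * (s - B1.card * (1 / (9 * (r + 1)))) = (r + 1) ^ K *
        (320 * (r + 1) * s - 320 / 9 * B1.card) from fun s => by field_simp, mul_comm 40, mul_assoc]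
    gcongr
    nlinarith
  rw [sum_add_distrib] at q
  have q2 := mul_le_mul_of_nonneg_right (one_le_pow₀ (n := K) (show (1 : ℝ) ≤ r + 1 by simp))
    B1.card.cast_nonneg
  rcases le_total (∑ x ∈ B1, exp (60 * (K + 1) * y ^ 3 * u ⬝ᵥ V x)) (∑ x ∈ B1, exp (60 * (K + 1) * y ^ 3 * (-u) ⬝ᵥ V x)) with a | a
  · exact ⟨-u, by simpa using p1, fun x z => by rw [neg_dotProduct, z, neg_zero], by linarith⟩
  · exact ⟨u, p1, fun x z => z, by linarith⟩

lemma step (K : ℕ) {ε : ℝ} (ε0 : 0 < ε) : ∃ C, 0 ≤ C ∧ ∀ (r : ℕ) (ι β : Type) (M : ι → β → ℝ)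
    (I : Finset ι) (B : Finset β), Rk M r → I.Nonempty → B.Nonempty → ∃ I' ⊆ I, ∃ B' ⊆ B,
      exp (-(ε * r + C)) * I.card ≤ I'.card ∧ exp (-(ε * r + C)) * B.card ≤ B'.card ∧
      ((∀ i ∈ I', ∀ x ∈ B', M i x = 0) ∨
        4 * (r + 1) ^ K * ∑ i ∈ I', (B'.filter fun x => M i x = 0).card ≤ I'.card * B'.card) := by
  refine ⟨ε + 360 * (K + 1) * (360 * (K + 1) / ε) ^ 3, by positivity,
    fun r ι β M I B ⟨u, v, h⟩ nI nB => ?_⟩
  obtain ⟨y, y1, hy⟩ : ∃ y : ℝ, 1 ≤ y ∧ y ^ 4 = r + 1 := ⟨√√(r + 1), by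
    simp [one_le_sqrt], by
    rw [show 4 = 2 * 2 from rfl, pow_mul, sq_sqrt (sqrt_nonneg _), sq_sqrt (by positivity)]⟩
  have K1 : (1 : ℝ) ≤ K + 1 := by simp
  have y3 : 1 ≤ y ^ 3 := one_le_pow₀ y1
  set l := 60 * (K + 1) * y ^ 3 with hl
  have E : (320 * (r + 1) ^ (K + 1) : ℝ) ≤ exp (20 * (K + 1) * y) := by
    calc _ ≤ (5 ^ 4) ^ (K + 1) * (r + 1 : ℝ) ^ (K + 1) := by
          gcongr
          exact le_trans (by norm_num) (le_self_pow₀ (by norm_num) K.succ_ne_zero)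
      _ = ((5 * y) ^ 4) ^ (K + 1) := by rw [mul_pow, hy, mul_pow]
      _ ≤ (exp (5 * y) ^ 4) ^ (K + 1) := by
          gcongr
          linarith [add_one_le_exp (5 * y)]
      _ = _ := by
          rw [← exp_nat_mul, ← exp_nat_mul]
          exact congrArg exp (by push_cast; ring)
  have n1 : (1 : ℝ) ≤ r + 1 := by simp
  have nK : (1 : ℝ) ≤ (r + 1) ^ K := one_le_pow₀ n1
  have θ : exp (-(ε * r + (ε + 360 * (K + 1) * (360 * (K + 1) / ε) ^ 3))) * (2 * (r + 1)) ≤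
      exp (-(5 * l)) := by
    have h1 : 2 * (r + 1 : ℝ) ≤ exp l := le_trans (by rw [pow_succ]; nlinarith)
      (E.trans (exp_le_exp.mpr (by nlinarith [le_self_pow₀ y1 three_ne_zero])))
    refine (mul_le_mul_of_nonneg_left h1 (exp_pos _).le).trans ?_
    rw [← exp_add, exp_le_exp]
    have : 360 * (K + 1) * y ^ 3 ≤ ε * y ^ 4 + 360 * (K + 1) * (360 * (K + 1) / ε) ^ 3 := by
      rcases le_total y (360 * (K + 1) / ε) with c | c
      · exact le_add_of_nonneg_of_le (by positivity) (by gcongr)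
      · rw [div_le_iff₀ ε0] at c
        exact le_add_of_le_of_nonneg (by nlinarith) (by positivity)
    rw [hy] at this
    linarith
  have e1 : exp (-(5 * l)) ≤ 1 := exp_le_one_iff.mpr (by nlinarith)
  have θ0 := exp_pos (-(ε * r + (ε + 360 * (K + 1) * (360 * (K + 1) / ε) ^ 3)))
  generalize exp (-(ε * r + (ε + 360 * (K + 1) * (360 * (K + 1) / ε) ^ 3))) = θ' at *
  obtain ⟨B1, s1, c1, h1⟩ := forster r u v B
  have b0 : (0 : ℝ) < B1.card := by
    have := nB.card_pos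
    exact_mod_cast Nat.pos_of_ne_zero fun q => by simp [q] at c1; simp [c1] at this
  replace c1 : (B.card : ℝ) ≤ (r + 1) * B1.card := by exact_mod_cast c1
  have i0 : (0 : ℝ) < I.card := by exact_mod_cast nI.card_pos
  have w1 : θ' * B.card ≤ exp (-(5 * l)) * B1.card := by
    nlinarith [mul_le_mul_of_nonneg_left c1 θ0.le, mul_le_mul_of_nonneg_right θ b0.le,
      show 0 ≤ θ' * ((r + 1) * B1.card) by positivity]
  have w2 : ∀ J : Finset ι, I.card ≤ 2 * J.card → θ' * I.card ≤ exp (-(5 * l)) * J.card :=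
    fun J q => by
      replace q : (I.card : ℝ) ≤ 2 * J.card := by exact_mod_cast q
      nlinarith [mul_le_mul_of_nonneg_left q θ0.le, mul_le_mul_of_nonneg_right θ J.card.cast_nonneg,
        show 0 ≤ θ' * (r * J.card) by positivity]
  have w3 : ∀ J ⊆ I, I.card ≤ 2 * J.card → (∀ i ∈ J, ∀ x ∈ B1, u i ⬝ᵥ v x = 0) → ∃ I' ⊆ I, ∃ B' ⊆ B,
      θ' * I.card ≤ I'.card ∧ θ' * B.card ≤ B'.card ∧ ((∀ i ∈ I', ∀ x ∈ B', M i x = 0) ∨
        4 * (r + 1) ^ K * ∑ i ∈ I', (B'.filter fun x => M i x = 0).card ≤ I'.card * B'.card) :=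
    fun J s q z => ⟨J, s, B1, s1, (w2 J q).trans (mul_le_of_le_one_left (by positivity) e1),
      w1.trans (mul_le_of_le_one_left b0.le e1), Or.inl fun i hi x hx => (h i x).trans (z i hi x hx)⟩
  rcases h1 with h1 | ⟨k, U, V, hV, hU⟩
  · exact w3 I subset_rfl (by omega) fun i _ => h1 i
  have sp := card_filter_add_card_filter_not (s := I) fun i => ∀ x ∈ B1, u i ⬝ᵥ v x = 0
  by_cases c : I.card ≤ 2 * (I.filter fun i => ∀ x ∈ B1, u i ⬝ᵥ v x = 0).card
  · exact w3 _ (filter_subset _ _) c fun i hi => (mem_filter.mp hi).2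
  set J := I.filter fun i => ¬ ∀ x ∈ B1, u i ⬝ᵥ v x = 0
  have w4 := w2 J (by omega)
  have : ∀ i ∈ J, ∃ w : Fin k → ℝ, w ⬝ᵥ w = 1 ∧ (∀ x ∈ B1, M i x = 0 → w ⬝ᵥ V x = 0) ∧
      4 * (4 * (r + 1) ^ K + 1) * (B1.card : ℝ) ≤ ∑ x ∈ B1, exp (l * w ⬝ᵥ V x) := fun i hi => by
    obtain ⟨p1, p2, p3⟩ := (hU i).resolve_left (mem_filter.mp hi).2
    obtain ⟨w, a1, a2, a3⟩ := sgn y1 hy E p1 p2 hV
    exact ⟨w, a1, fun x hx z => a2 x (p3 x hx ((h i x).symm.trans z)), a3⟩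
  choose! W W1 W2 W3 using this
  obtain ⟨I', s2, B', s3, p⟩ := tilt W1 hV (show 6 ≤ l by nlinarith) (by positivity) W3
  have p1 : ∑ i ∈ I', ∑ x ∈ B', (1 - if W i ⬝ᵥ V x = 0 then 4 * (r + 1 : ℝ) ^ K else 0) ≤
      I'.card * B'.card - 4 * (r + 1) ^ K * ∑ i ∈ I', ((B'.filter fun x => M i x = 0).card : ℝ) := by
    simp only [sum_sub_distrib, sum_const, nsmul_eq_mul, mul_one, mul_sum, card_filter, Nat.cast_sum]
    gcongr with i hi x hx
    by_cases a : M i x = 0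
    · simp [a, W2 i (s2 hi) x (s3 hx) a]
    · rw [if_neg a, Nat.cast_zero, mul_zero]
      split_ifs
      · positivity
      · rfl
  have p2 := (p.trans p1).trans (sub_le_self _ (mul_nonneg (by linarith)
    (sum_nonneg fun _ _ => Nat.cast_nonneg _)))
  have j0 : (0 : ℝ) < J.card := (mul_pos_iff_of_pos_left (exp_pos _)).mp ((mul_pos θ0 i0).trans_le w4)
  have p3 : (B'.card : ℝ) ≤ B1.card := by exact_mod_cast card_le_card s3
  have p4 : (I'.card : ℝ) ≤ J.card := by exact_mod_cast card_le_card s2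
  refine ⟨I', s2.trans (filter_subset _ _), B', s3.trans s1, w4.trans (le_of_mul_le_mul_right ?_ b0),
    w1.trans (le_of_mul_le_mul_right ?_ j0), Or.inr ?_⟩
  · linarith [mul_le_mul_of_nonneg_left p3 I'.card.cast_nonneg]
  · linarith [mul_le_mul_of_nonneg_left p4 B'.card.cast_nonneg]
  · have := show (0 : ℝ) ≤ exp (-(5 * l)) * (J.card * B1.card) by positivity
    exact_mod_cast sub_nonneg.mp (this.trans (p.trans p1))

lemma rect (K : ℕ) {ε : ℝ} (ε0 : 0 < ε) : ∃ C, 0 ≤ C ∧ ∀ (r : ℕ) (ι β τ : Type) (M : τ → ι → β → ℝ)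
    (T : Finset τ), (∀ t, Rk (M t) r) → T.card ≤ K → ∀ (I : Finset ι) (B : Finset β), I.Nonempty →
      B.Nonempty → (∀ i ∈ I, ∀ x ∈ B, ∃ t ∈ T, M t i x = 0) → ∃ t ∈ T, ∃ I' ⊆ I, ∃ B' ⊆ B,
      exp (-(ε * r + C)) ^ T.card * I.card ≤ I'.card ∧ exp (-(ε * r + C)) ^ T.card * B.card ≤ B'.card ∧
      ∀ i ∈ I', ∀ x ∈ B', M t i x = 0 := by
  obtain ⟨C, C0, h⟩ := step K ε0
  refine ⟨C + 1, by positivity, fun r ι β τ M T hM => ?_⟩
  have e1 : exp (-(ε * r + (C + 1))) * 2 ≤ exp (-(ε * r + C)) := by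
    rw [← add_assoc, neg_add, exp_add, mul_assoc]
    exact mul_le_of_le_one_right (exp_pos _).le (by linarith [exp_neg_one_lt_d9])
  have e2 : exp (-(ε * r + (C + 1))) ≤ 1 := exp_le_one_iff.mpr (neg_nonpos.mpr (by positivity))
  have e3 := exp_pos (-(ε * r + (C + 1)))
  have e4 := exp_pos (-(ε * r + C))
  generalize exp (-(ε * r + (C + 1))) = θ at *
  induction T using Finset.induction_on with
  | empty => exact fun _ I B ⟨i, hi⟩ ⟨x, hx⟩ k => by simpa using k i hi x hx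
  | insert t T n ih =>
  intro hK I B nI nB k
  rw [card_insert_of_notMem n] at hK ⊢
  obtain ⟨I1, s1, B1, s2, p1, p2, p3⟩ := h r ι β (M t) I B (hM t) nI nB
  have w : ∀ a b c d : ℕ, exp (-(ε * r + C)) * a ≤ b → b ≤ 2 * c → θ ^ T.card * c ≤ d →
      θ ^ (T.card + 1) * a ≤ d := fun a b c d p q s => by
    replace q : (b : ℝ) ≤ 2 * c := by exact_mod_cast q
    refine le_trans ?_ s
    rw [pow_succ, mul_assoc]
    gcongr
    nlinarith [mul_le_mul_of_nonneg_right e1 a.cast_nonneg]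
  have ne : ∀ {a b : ℕ}, 0 < a → exp (-(ε * r + C)) * a ≤ b → 0 < b := fun p q => by
    exact_mod_cast (mul_pos e4 (Nat.cast_pos.mpr p)).trans_le q
  rcases p3 with p3 | p3
  · have := pow_le_one₀ (n := T.card) e3.le e2
    exact ⟨t, mem_insert_self _ _, I1, s1, B1, s2,
      w _ _ _ _ p1 (by omega) (mul_le_of_le_one_left (by positivity) this),
      w _ _ _ _ p2 (by omega) (mul_le_of_le_one_left (by positivity) this), p3⟩
  have n1 := ne nI.card_pos p1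
  have n2 := ne nB.card_pos p2
  obtain ⟨I2, s3, B2, s4, q1, q2, q3⟩ := clean (Rk.prod hM T) I1 (card_pos.mp n2) (le_trans (by
    gcongr ?_ * ∑ i ∈ I1, ?_ with i hi
    · exact Nat.mul_le_mul_left _ ((Nat.pow_le_pow_left r.le_succ _).trans
        (Nat.pow_le_pow_right r.succ_pos (by omega)))
    · refine card_le_card fun x hx => ?_
      rw [mem_filter] at hx ⊢
      obtain ⟨t', a, b⟩ := k i (s1 hi) x (s2 hx.1)
      rcases mem_insert.mp a with rfl | a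
      · exact ⟨hx.1, b⟩
      · exact (hx.2 (prod_eq_zero a b)).elim) p3)
  obtain ⟨t', a, I3, s5, B3, s6, r1, r2, r3⟩ := ih (by omega) I2 B2 (card_pos.mp (by omega))
    (card_pos.mp (by omega)) fun i hi x hx => prod_eq_zero_iff.mp (q3 i hi x hx)
  exact ⟨t', mem_insert_of_mem a, I3, s5.trans (s3.trans s1), B3, s6.trans (s4.trans s2),
    w _ _ _ _ p1 q1 r1, w _ _ _ _ p2 q2 r2, r3⟩

end Pool.Agent.H.MP_ba5def_co
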