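import Pool.Agent.H.MP_ba5def_co.C

/-! Sets without a large subset with distinct distances have subexponential size. -/

namespace Pool.Agent.H.MP_ba5def_co
open Finset Classical Real Module
open scoped RealInnerProductSpace

def Ok {V : Type} [MetricSpace V] {m : ℕ} (p : Fin m → V) : Prop := ∀ a b c e, a ≠ b →
  dist (p a) (p b) = dist (p c) (p e) → (a = c ∧ b = e) ∨ (a = e ∧ b = c)

def Rb {V : Type} [MetricSpace V] (m : ℕ) (X : Finset V) : Prop :=
  ∃ p : Fin m → V, (∀ a, p a ∈ X) ∧ Ok p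

def Bd (m d : ℕ) (N : ℝ) : Prop := ∀ (V : Type) [NormedAddCommGroup V] [InnerProductSpace ℝ V]
  [FiniteDimensional ℝ V], finrank ℝ V ≤ d → ∀ X : Finset V, ¬ Rb m X → X.card ≤ N

lemma ext1 {V : Type} [MetricSpace V] {m : ℕ} {p : Fin m → V} (h : Ok p) {x : V}
    (h1 : ∀ a b c, dist x (p a) ≠ dist (p b) (p c)) (h2 : ∀ a b, a ≠ b → dist x (p a) ≠ dist x (p b)) :
    Ok (Fin.cons x p : Fin (m + 1) → V) := by
  intro a b c e
  have z : ∀ a, dist (p a) (p a) = 0 := fun _ => dist_self _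
  have := dist_self x
  unfold Ok at h
  refine Fin.cases ?_ (fun a => ?_) a <;> refine Fin.cases ?_ (fun b => ?_) b <;>
    refine Fin.cases ?_ (fun c => ?_) c <;> refine Fin.cases ?_ (fun e => ?_) e <;>
    simp only [Fin.cons_zero, Fin.cons_succ, dist_comm _ x, ne_eq, Fin.succ_inj, Fin.succ_ne_zero,
      (Fin.succ_ne_zero _).symm] <;> grind

section
variable {V : Type} [NormedAddCommGroup V] [InnerProductSpace ℝ V] [FiniteDimensional ℝ V]

lemma Bd.sub {m d : ℕ} {N : ℝ} (h : Bd m d N) {X : Finset V} (n : ¬ Rb m X) {W : Submodule ℝ V}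
    (hW : finrank ℝ W ≤ d) (a : V) : ((X.filter fun b => b - a ∈ W).card : ℝ) ≤ N := by
  refine le_trans ?_ (h W hW (X.preimage (fun w => a + w) fun _ _ _ _ q =>
    Subtype.ext (add_left_cancel q)) fun ⟨p, p1, p2⟩ => n ⟨fun j => a + p j,
      fun j => by simpa using p1 j, fun i j k l q r => p2 i j k l q (by
        simpa [Subtype.dist_eq] using r)⟩)
  refine Nat.cast_le.mpr ((card_le_card fun b hb => ?_).trans
    (card_image_le (f := fun w : W => a + w)))
  rw [mem_filter] at hb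
  exact mem_image.mpr ⟨⟨b - a, hb.2⟩, mem_preimage.mpr (by simpa using hb.1), by simp⟩

lemma rk {ι : Type} (α β : ι → ℝ) (y : ι → V) :
    Rk (fun i (x : V) => α i * ‖x‖ ^ 2 + ⟪y i, x⟫ + β i) (finrank ℝ V + 2) := by
  have := Rk.of (κ := Option (Option (Fin (finrank ℝ V))))
    (fun i j => j.elim (β i) fun j => j.elim (α i) fun j => ⟪y i, stdOrthonormalBasis ℝ V j⟫)
    fun (x : V) j => j.elim 1 fun j => j.elim (‖x‖ ^ 2) fun j => ⟪stdOrthonormalBasis ℝ V j, x⟫
  simp only [dotProduct, Fintype.sum_option, Option.elim, OrthonormalBasis.sum_inner_mul_inner,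
    Fintype.card_option, Fintype.card_fin, mul_one, add_comm (β _)] at this
  exact this

lemma cnt {s : ℕ} {X : Finset V} {h : ℝ} (j : Fin s) (Q : (Fin s → V) → Prop)
    (k : ∀ y, ((X.filter fun b => Q (Function.update y j b)).card : ℝ) ≤ h) :
    ((Fintype.piFinset fun _ => X).filter Q).card * (X.card : ℝ) ≤ h * X.card ^ s := by
  have := sum_le_card_nsmul (Fintype.piFinset fun _ : Fin s => X) _ _ fun y _ => k y
  rw [Fintype.card_piFinset_const, nsmul_eq_mul, mul_comm, Nat.cast_pow] at this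
  refine le_trans ?_ this
  norm_cast
  rw [← card_sigma, ← card_product]
  refine card_le_card_of_injOn (fun q => ⟨Function.update q.1 j q.2, q.1 j⟩) (fun q hq => ?_)
    fun q _ q' _ e => ?_
  · simp only [coe_product, Set.mem_prod, mem_coe, mem_filter, Fintype.mem_piFinset, mem_sigma,
      Function.update_idem, Function.update_eq_self] at hq ⊢
    exact ⟨fun i => by rw [Function.update_apply]; split_ifs <;> simp [hq], hq.1.1 j, hq.1.2⟩
  · simp only [Sigma.mk.injEq, heq_eq_eq] at e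
    refine Prod.ext (funext fun i => ?_) (by simpa using congrFun e.1 j)
    by_cases c : i = j
    · exact c ▸ e.2
    · simpa [c] using congrFun e.1 i

lemma cnt2 {s : ℕ} {X : Finset V} {h : ℝ} (W : Submodule ℝ V)
    (k : ∀ a, ((X.filter fun b => b - a ∈ W).card : ℝ) ≤ h) (a : V) {I : Finset (Fin s → V)}
    (hI : I ⊆ Fintype.piFinset fun _ => X)
    (q : (∀ y ∈ I, ∃ j, y j - a ∈ W) ∨ ∀ y ∈ I, ∃ j j', j ≠ j' ∧ y j - y j' ∈ W) :
    I.card * (X.card : ℝ) ≤ s ^ 2 * h * X.card ^ s := by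
  have : ∀ Q : Fin s × Fin s → (Fin s → V) → Prop, (∀ y ∈ I, ∃ t, Q t y) →
      (∀ t y, ((X.filter fun b => Q t (Function.update y t.1 b)).card : ℝ) ≤ h) →
      I.card * (X.card : ℝ) ≤ s ^ 2 * h * X.card ^ s := fun Q q1 q2 => by
    have h1 : I.card ≤ ∑ t, ((Fintype.piFinset fun _ => X).filter (Q t)).card :=
      (card_le_card fun y hy => by simpa [hI hy] using q1 y hy).trans card_biUnion_le
    have h2 := sum_le_card_nsmul univ _ _ fun t _ => cnt t.1 (Q t) (q2 t)
    rw [← sum_mul, ← Nat.cast_sum] at h2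
    exact (mul_le_mul_of_nonneg_right (Nat.cast_le.mpr h1) (Nat.cast_nonneg _)).trans
      (h2.trans_eq (by simp; ring))
  rcases q with q | q
  · exact this (fun t y => y t.1 - a ∈ W) (fun y hy => (q y hy).elim fun j p => ⟨(j, j), p⟩)
      fun t y => by simpa using k a
  · refine this (fun t y => t.1 ≠ t.2 ∧ y t.1 - y t.2 ∈ W)
      (fun y hy => (q y hy).elim fun j ⟨j', p⟩ => ⟨(j, j'), p⟩) fun t y => le_trans ?_ (k (y t.2))
    refine Nat.cast_le.mpr (card_le_card fun b hb => ?_)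
    simp only [mem_filter] at hb ⊢
    simpa [hb.1, hb.2.1.symm] using hb.2.2

end

lemma recur (m : ℕ) {ε : ℝ} (ε0 : 0 < ε) : ∃ C, 0 ≤ C ∧ ∀ (d : ℕ) (N h : ℝ), 0 ≤ N → 1 ≤ h → Bd m d N →
    Bd (m + 1) (d / 2) h → Bd (m + 1) d (2 * (N + 1) ^ 2 * h * exp (ε * d + C)) := by
  set K := Fintype.card (Fin m × Fin m × Option (Fin m))
  obtain ⟨C, C0, hC⟩ := rect K (show 0 < ε / (K + 1) by positivity)
  refine ⟨2 * ε + K * C, by positivity, fun d N h N0 h1 b1 b2 V _ _ _ hd X n => ?_⟩
  have e1 : 1 ≤ exp (ε * d + (2 * ε + K * C)) := one_le_exp (by positivity)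
  obtain ⟨s, s1, s2⟩ : ∃ s : ℕ, N < s ∧ s ≤ N + 1 := ⟨⌊N⌋₊ + 1, by
    push_cast; exact Nat.lt_floor_add_one N, by push_cast; linarith [Nat.floor_le N0]⟩
  have s3 : (s : ℝ) ^ 2 ≤ (N + 1) ^ 2 := by gcongr
  have s4 : (1 : ℝ) ≤ (N + 1) ^ 2 := one_le_pow₀ (by linarith)
  by_contra! c
  have c1 : 2 * (N + 1) ^ 2 < X.card := lt_of_le_of_lt (by
    rw [mul_assoc]; exact le_mul_of_one_le_right (by positivity) (one_le_mul_of_one_le_of_one_le h1 e1)) c
  have x0 : (0 : ℝ) < X.card := by linarith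
  set I := (Fintype.piFinset fun _ : Fin s => X).filter Function.Injective
  have i1 : (X.card : ℝ) ^ s ≤ 2 * I.card := by
    have := cnt2 (X := X) (h := 1) ⊥ (fun a => by
      exact_mod_cast card_le_one.mpr (by simp +contextual [sub_eq_zero])) 0
      (filter_subset (¬ Function.Injective ·) (Fintype.piFinset fun _ : Fin s => X))
      (Or.inr fun y hy => by
        obtain ⟨j, j', p, q⟩ := Function.not_injective_iff.mp (mem_filter.mp hy).2
        exact ⟨j, j', q, by simp [p]⟩)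
    have h2 : I.card + _ = _ := card_filter_add_card_filter_not
      (s := Fintype.piFinset fun _ : Fin s => X) Function.Injective
    rw [Fintype.card_piFinset_const] at h2
    replace h2 := congrArg (Nat.cast : ℕ → ℝ) h2
    push_cast at h2
    refine le_of_mul_le_mul_right ?_ x0
    nlinarith [mul_le_mul_of_nonneg_right (s3.trans (by linarith : _ ≤ (X.card : ℝ) / 2))
      (pow_pos x0 s).le]
  have : ∀ y ∈ I, ∃ p : Fin m → V, (∀ a, ∃ j, y j = p a) ∧ Ok p := fun y hy => by
    by_contra k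
    have := b1 V hd (univ.image y) fun ⟨p, p1, p2⟩ => k ⟨p, fun a => by simpa using p1 a, p2⟩
    rw [card_image_of_injective _ (mem_filter.mp hy).2, card_univ, Fintype.card_fin] at this
    linarith
  choose! P P1 P2 using this
  let M : Fin m × Fin m × Option (Fin m) → (Fin s → V) → V → ℝ := fun t y x => dist x (P y t.1) ^ 2 -
    t.2.2.elim (dist x (P y t.2.1) ^ 2) fun c => dist (P y t.2.1) (P y c) ^ 2
  have ds : ∀ x p : V, dist x p ^ 2 = ‖x‖ ^ 2 - 2 * ⟪p, x⟫ + ‖p‖ ^ 2 := fun x p => by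
    rw [dist_eq_norm, norm_sub_sq_real, real_inner_comm]
  obtain ⟨⟨a, b, o⟩, ht, I', t1, B, t2, t3, t4, t5⟩ := hC (finrank ℝ V + 2) _ _ _ M
    (univ.filter fun t => t.2.2 = none → t.1 ≠ t.2.1) (fun ⟨a, b, o⟩ => by
      cases o with
      | none =>
        have := rk (fun _ => 0) (fun y => ‖P y a‖ ^ 2 - ‖P y b‖ ^ 2) fun y => (2 : ℝ) • (P y b - P y a)
        refine (congrArg (Rk · _) (funext₂ fun y x => ?_)).mp this
        simp only [M, Option.elim, ds, inner_smul_left, inner_sub_left, conj_trivial]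
        ring
      | some c =>
        have := rk (fun _ => 1) (fun y => ‖P y a‖ ^ 2 - dist (P y b) (P y c) ^ 2)
          fun y => (-2 : ℝ) • P y a
        refine (congrArg (Rk · _) (funext₂ fun y x => ?_)).mp this
        simp only [M, Option.elim, ds x, inner_smul_left, conj_trivial]
        ring)
    (card_le_univ _) I X (card_pos.mp (by exact_mod_cast (by linarith [pow_pos x0 s] :
      (0 : ℝ) < I.card))) (card_pos.mp (by exact_mod_cast x0)) fun y hy x hx => by
      by_contra! k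
      refine n ⟨Fin.cons x (P y), fun a => Fin.cases hx (fun a => ?_) a, ext1 (P2 y hy)
        (fun a b c q => k (a, b, some c) (by simp) (by simp [M, q]))
        fun a b q r => k (a, b, none) (by simpa) (by simp [M, r])⟩
      obtain ⟨j, hj⟩ := P1 y hy a
      rw [Fin.cons_succ, ← hj]
      exact Fintype.mem_piFinset.mp (mem_filter.mp hy).1 j
  have θ : 1 ≤ exp (ε * d + (2 * ε + K * C)) * exp (-(ε / (K + 1) * (finrank ℝ V + 2 : ℕ) + C)) ^
      (univ.filter fun t : Fin m × Fin m × Option (Fin m) => t.2.2 = none → t.1 ≠ t.2.1).card := by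
    have h2 : ((univ.filter fun t : Fin m × Fin m × Option (Fin m) =>
      t.2.2 = none → t.1 ≠ t.2.1).card : ℝ) ≤ K := Nat.cast_le.mpr (card_le_univ _)
    have h3 : (finrank ℝ V : ℝ) ≤ d := Nat.cast_le.mpr hd
    have h4 : K * (ε / (K + 1)) ≤ ε := by
      rw [mul_div_assoc', div_le_iff₀ (by positivity)]
      nlinarith
    rw [← exp_nat_mul, ← exp_add, one_le_exp_iff, mul_neg, ← sub_eq_add_neg, sub_nonneg]
    calc _ ≤ K * (ε / (K + 1) * (d + 2) + C) := by push_cast; gcongr
      _ ≤ _ := by nlinarith [mul_le_mul_of_nonneg_right h4 (show (0 : ℝ) ≤ d + 2 by positivity)]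
  generalize exp (-(ε / (K + 1) * (finrank ℝ V + 2 : ℕ) + C)) ^ _ = θ' at *
  generalize exp (ε * d + (2 * ε + K * C)) = E at *
  have ne : ∀ {a : ℝ} {b : ℕ}, 0 < a → θ' * a ≤ b → a ≤ E * b := fun p q =>
    (le_mul_of_one_le_left p.le θ).trans (by rw [mul_assoc]; gcongr)
  have u1 := ne (by linarith [pow_pos x0 s]) t3
  have u2 := ne x0 t4
  obtain ⟨y0, hy0⟩ : I'.Nonempty := nonempty_iff_ne_empty.mpr fun q => by
    rw [q, card_empty, Nat.cast_zero, mul_zero] at u1
    linarith [pow_pos x0 s]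
  obtain ⟨x0', hx0⟩ : B.Nonempty := nonempty_iff_ne_empty.mpr fun q => by
    rw [q, card_empty, Nat.cast_zero, mul_zero] at u2
    linarith
  let z : (Fin s → V) → V := fun y => P y a - o.elim (P y b) fun _ => P y0 a
  let W := Submodule.span ℝ (z '' I')
  have w1 : ∀ x ∈ B, x - x0' ∈ Wᗮ := fun x hx => by
    refine (Submodule.isOrtho_iff_le.mp (Submodule.isOrtho_span.mpr ?_ : Submodule.span ℝ {x - x0'} ⟂ W))
      (Submodule.subset_span rfl)
    rintro _ rfl _ ⟨y, hy, rfl⟩
    have a1 := t5 y hy x hx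
    have a2 := t5 y hy x0' hx0
    have a3 := t5 y0 hy0 x hx
    have a4 := t5 y0 hy0 x0' hx0
    rw [real_inner_comm]
    cases o <;> simp only [M, z, Option.elim, ds x, ds x0', inner_sub_left, inner_sub_right] at * <;>
      linarith
  have := W.finrank_add_finrank_orthogonal
  rcases le_or_gt (finrank ℝ Wᗮ) (d / 2) with q | q
  · have := b2.sub n q x0'
    have : (B.card : ℝ) ≤ h := le_trans (Nat.cast_le.mpr (card_le_card fun x hx =>
      mem_filter.mpr ⟨t2 hx, w1 x hx⟩)) this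
    nlinarith [mul_le_mul_of_nonneg_left this (zero_le_one.trans e1),
      mul_le_mul_of_nonneg_right s4 (show 0 ≤ h * E by positivity), show 0 ≤ h * E by positivity]
  have := cnt2 W (b2.sub n (by omega)) (P y0 a) (t1.trans (filter_subset _ _)) (by
    have zw : ∀ y ∈ I', z y ∈ W := fun y hy => Submodule.subset_span ⟨y, hy, rfl⟩
    cases o with
    | none => exact Or.inr fun y hy => by
                obtain ⟨j, hj⟩ := P1 y (t1 hy) a
                obtain ⟨j', hj'⟩ := P1 y (t1 hy) b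
                have ab : a ≠ b := (mem_filter.mp ht).2 rfl
                refine ⟨j, j', fun q => ?_, hj ▸ hj' ▸ zw y hy⟩
                have := P2 y (t1 hy) a b a a ab (by rw [← hj', ← q, hj])
                grind
    | some c => exact Or.inl fun y hy => (P1 y (t1 hy) a).elim fun j hj =>
                  ⟨j, by rw [hj]; exact zw y hy⟩)
  have v1 : X.card * (X.card : ℝ) ^ s ≤ 2 * (N + 1) ^ 2 * h * E * X.card ^ s :=
    calc _ ≤ X.card * (2 * (E * I'.card)) := by gcongr; linarith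
      _ = 2 * E * (I'.card * X.card) := by ring
      _ ≤ 2 * E * ((N + 1) ^ 2 * h * X.card ^ s) := by
          gcongr ?_ * ?_
          exact this.trans (by gcongr)
      _ = _ := by ring
  exact c.not_ge (le_of_mul_le_mul_right v1 (pow_pos x0 s))

lemma main (m : ℕ) : ∀ ε : ℝ, 0 < ε → ∃ C, 0 ≤ C ∧ ∀ d : ℕ, Bd m d (C * exp (ε * d)) := by
  induction m with
  | zero => exact fun ε _ => ⟨0, le_rfl, fun d V _ _ _ _ X n => (n ⟨Fin.elim0, by simp, by
      simp [Ok]⟩).elim⟩
  | succ m ih =>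
  intro ε ε0
  obtain ⟨C, C0, h⟩ := ih (ε / 7) (by positivity)
  obtain ⟨C', -, h'⟩ := recur m (show 0 < ε / 7 by positivity)
  obtain ⟨p, hp⟩ := pow_unbounded_of_one_lt (2 * (C + 1) ^ 2 * exp C') (show (1 : ℝ) < 3 / 2 by norm_num)
  have mono : ∀ {d : ℕ} {N N' : ℝ}, Bd (m + 1) d N → N ≤ N' → Bd (m + 1) d N' :=
    fun h q V _ _ _ hd X n => (h V hd X n).trans q
  have : ∀ d : ℕ, Bd (m + 1) d ((2 * d + 1) ^ p * exp (6 * (ε / 7 * d))) := fun d => by
    induction d using Nat.strong_induction_on with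
    | _ d IH =>
    rcases d.eq_zero_or_pos with rfl | d0
    · intro V _ _ _ hd X _
      have := finrank_zero_iff.mp (Nat.le_zero.mp hd)
      simpa using card_le_one_of_subsingleton X
    have x0 : 0 ≤ ε / 7 * (d / 2 : ℕ) := by positivity
    refine mono (h' d _ _ (by positivity) (one_le_mul_of_one_le_of_one_le (one_le_pow₀ (by simp))
      (one_le_exp (by linarith))) (h d) (IH _ (Nat.div_lt_self d0 one_lt_two))) ?_
    have d1 : (1 : ℝ) ≤ d := by exact_mod_cast d0
    have d2 : 2 * ((d / 2 : ℕ) : ℝ) ≤ d := by exact_mod_cast Nat.mul_div_le d 2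
    have e1 : 1 ≤ exp (ε / 7 * d) := one_le_exp (by positivity)
    calc _ ≤ 2 * ((C + 1) * exp (ε / 7 * d)) ^ 2 * ((2 * (d / 2 : ℕ) + 1) ^ p * exp (3 * (ε / 7 * d))) *
          exp (ε / 7 * d + C') := by
          gcongr 2 * ?_ ^ 2 * (_ * exp ?_) * _ <;> nlinarith
      _ = 2 * (C + 1) ^ 2 * exp C' * (2 * (d / 2 : ℕ) + 1) ^ p * (exp (ε / 7 * d) * exp (ε / 7 * d) *
          exp (ε / 7 * d) * exp (3 * (ε / 7 * d))) := by rw [exp_add]; ring
      _ ≤ (3 / 2) ^ p * (2 * (d / 2 : ℕ) + 1) ^ p * exp (6 * (ε / 7 * d)) := by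
          rw [← exp_add, ← exp_add, ← exp_add]
          gcongr
          linarith
      _ ≤ _ := by
          rw [← mul_pow]
          gcongr
          linarith
  refine ⟨(14 / ε) ^ p * p.factorial * exp (ε / 14), by positivity, fun d => mono (this d) ?_⟩
  have := pow_div_factorial_le_exp (ε / 14 + ε / 7 * d) (by positivity) p
  rw [div_le_iff₀ (by positivity)] at this
  calc _ = (14 / ε) ^ p * (ε / 14 + ε / 7 * d) ^ p * exp (6 * (ε / 7 * d)) := by
        rw [← mul_pow]
        congr 2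
        field_simp
        ring
    _ ≤ (14 / ε) ^ p * (exp (ε / 14 + ε / 7 * d) * p.factorial) * exp (6 * (ε / 7 * d)) := by gcongr
    _ = _ := by
        rw [show ε * d = ε / 7 * d + 6 * (ε / 7 * d) by ring, exp_add, exp_add]
        ring

end Pool.Agent.H.MP_ba5def_co
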